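import Pool.Agent.X22.SU3

/-!
# Polarized representations of unitary type in the cohomology of superelliptic curves with coefficients in arbitrarily thin families: joint moments of the traces of Frobenius, with all twists
and at all heights

Nothing is used besides Mathlib in the statement.
-/

set_option autoImplicit false

namespace Pool.Agent.Results.MP_adf543_nt.FewDigitSuperellipticParts

open Finset
open scoped ComplexConjugate Nat

/-- The normalised trace `- ∑ ψ (f (x)) / √p` of Frobenius on the `ψ`-part of the cohomology of the superelliptic curves `y ^ N = f (x)`, `f = X ^ n + ∑ m_j X ^ j`, modulo `p`. -/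
noncomputable def trace (p : ℕ) (ψ : MulChar (ZMod p) ℂ) {n : ℕ} (m : Fin n → ℕ) : ℂ :=
  if hp : p.Prime then
    haveI : Fact p.Prime := ⟨hp⟩
    (-(∑ x : ZMod p, ψ (x ^ n + ∑ j : Fin n, (m j : ZMod p) * x ^ (j : ℕ)))) / ((√(p : ℝ) : ℝ) : ℂ)
  else 0

/-- The moments of the standard complex normal distribution. For `a + b ≤ N` this is the dimension of the space of the invariants of the unitary group `U (N)` in `V ^ (⊗ a) ⊗ (V ^ ∨) ^ (⊗ b)`. -/
noncomputable def mu (a b : ℕ) : ℂ := if a = b then (a ! : ℂ) else 0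

/-- The character `ψ_p` has order at least `3`, and `1 + |t| ^ (2 ⌊n / 2⌋) ≤ p` for the trace `t` at `p` (`|t| ≤ n - 1` by Weil, if `f` modulo `p` is not a constant times an `N`-th power, `N` the order of `ψ_p`). -/
def Good (ψ : ∀ p : ℕ, MulChar (ZMod p) ℂ) {n : ℕ} (m : Fin n → ℕ) (p : ℕ) : Prop := ψ p ^ 2 ≠ 1 ∧ 1 + ‖trace p (ψ p) m‖ ^ (2 * (n / 2)) ≤ (p : ℝ)

open Classical in
/-- The sum `∑ w (p) (t ^ a \bar t ^ b - μ_(a, b)) p ^ (- i τ)` over the odd primes `p ≤ x` with the property `Good`, where `t` is the trace at `p`. -/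
noncomputable def partialSum (ψ : ∀ p : ℕ, MulChar (ZMod p) ℂ) {n : ℕ} (m : Fin n → ℕ) (a b : ℕ) (w : ℕ → ℂ) (τ : ℝ) (x : ℕ) : ℂ :=
  ∑ p ∈ (range (x + 1)).filter (fun p => (p.Prime ∧ p ≠ 2) ∧ Good ψ m p),
    w p * (trace p (ψ p) m ^ a * conj (trace p (ψ p) m) ^ b - mu a b) * Complex.exp (((-(τ * Real.log p) : ℝ) : ℂ) * Complex.I)

/-- The digit number `i` (counted from the right, beginning with `0`) of `n` in base `b`. -/
def digit (b i n : ℕ) : ℕ := n / b ^ i % b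

/-- The number which arises from the number `N` with at most `K` digits in base `b`, if for every `i ∈ S`
the digit number `i` is replaced by `f i`. -/
def change (b K N : ℕ) (f : ℕ → ℕ) (S : Finset ℕ) : ℕ :=
  ∑ i ∈ range K, (if i ∈ S then f i else digit b i N) * b ^ i

open Classical in
/-- The number of the choices of `s l` of `K l` positions for all `l < d` for which the vector of the numbers obtained by
changing the digits of the `N l` at the chosen positions (according to `f l`) does not have the property `P`. -/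
noncomputable def exceptions {d : ℕ} (b : ℕ) (K s N : Fin d → ℕ) (f : Fin d → ℕ → ℕ) (P : (Fin d → ℕ) → Prop) : ℕ :=
  ((Fintype.piFinset (fun l => powersetCard (s l) (range (K l)))).filter
    (fun S => ¬ P (fun l => change b (K l) (N l) (f l) (S l)))).card

open Pool.Agent.X22.ND (op mem_op mzd_law absorb hp norm_hp mean_mono cardop_le sum_inv_sqrt abs_mean_le mean_add')
open Pool.Agent.TH894.NE (mean mean_mul mean_const)

section
variable (ψ : ∀ p : ℕ, MulChar (ZMod p) ℂ) {n : ℕ}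

/-- the high power -/
noncomputable def Qf (p : ℕ) (m : Fin n → ℕ) : ℝ := 1 + ‖trace p (ψ p) m‖ ^ (2 * (n / 2))

/-- the product of the powers -/
noncomputable def pr (a b p : ℕ) (m : Fin n → ℕ) : ℂ := trace p (ψ p) m ^ a * conj (trace p (ψ p) m) ^ b

open Classical in
/-- the truncated difference -/
noncomputable def zz (a b p : ℕ) (m : Fin n → ℕ) : ℂ := if Good ψ m p then pr ψ a b p m - mu a b else 0

lemma trace_mod (p : ℕ) (m : Fin n → ℕ) : trace p (ψ p) (fun l => m l % p) = trace p (ψ p) m := by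
  unfold trace
  simp only [ZMod.natCast_mod]

lemma zz_mod (a b p : ℕ) (m : Fin n → ℕ) : zz ψ a b p m = zz ψ a b p (fun l => m l % p) := by
  have h1 : Good ψ (fun l => m l % p) p ↔ Good ψ m p := by
    unfold Good
    rw [trace_mod]
  have h2 : pr ψ a b p (fun l => m l % p) = pr ψ a b p m := by
    unfold pr
    rw [trace_mod]
  unfold zz
  by_cases hG : Good ψ m p
  · rw [if_pos hG, if_pos (h1.2 hG), h2]
  · rw [if_neg hG, if_neg (fun h => hG (h1.1 h))]

lemma Qf_one (p : ℕ) (m : Fin n → ℕ) : 1 ≤ Qf ψ p m := by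
  unfold Qf
  have : 0 ≤ ‖trace p (ψ p) m‖ ^ (2 * (n / 2)) := by positivity
  linarith

lemma pr_sq (a b : ℕ) (hab : a + b ≤ n / 2) (p : ℕ) (m : Fin n → ℕ) : ‖pr ψ a b p m‖ ^ 2 ≤ Qf ψ p m := by
  unfold pr Qf
  rw [norm_mul, norm_pow, norm_pow, Complex.norm_conj, ← pow_add, ← pow_mul]
  rcases le_total ‖trace p (ψ p) m‖ 1 with h | h
  · have h3 : ‖trace p (ψ p) m‖ ^ ((a + b) * 2) ≤ 1 := pow_le_one₀ (norm_nonneg _) h
    have h4 : 0 ≤ ‖trace p (ψ p) m‖ ^ (2 * (n / 2)) := by positivity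
    linarith
  · have h3 : ‖trace p (ψ p) m‖ ^ ((a + b) * 2) ≤ ‖trace p (ψ p) m‖ ^ (2 * (n / 2)) := pow_le_pow_right₀ h (by omega)
    linarith

lemma pr_abs (a b : ℕ) (hab : a + b ≤ n / 2) (p : ℕ) (m : Fin n → ℕ) : ‖pr ψ a b p m‖ ≤ √(Qf ψ p m) := by
  have := Real.abs_le_sqrt (pr_sq ψ a b hab p m)
  rwa [abs_of_nonneg (norm_nonneg _)] at this

lemma zz_abs (a b : ℕ) (hab : a + b ≤ n / 2) (p : ℕ) (hp1 : 1 ≤ p) (m : Fin n → ℕ) : ‖zz ψ a b p m‖ ≤ (1 + ‖mu a b‖) * √(p : ℝ) := by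
  unfold zz
  split_ifs with hG
  · have h1 := pr_abs ψ a b hab p m
    have h2 : √(Qf ψ p m) ≤ √(p : ℝ) := Real.sqrt_le_sqrt hG.2
    have h3 : (1 : ℝ) ≤ √(p : ℝ) := by
      rw [Real.one_le_sqrt]
      exact_mod_cast hp1
    refine (norm_sub_le _ _).trans ?_
    have h4 : 0 ≤ ‖mu a b‖ := norm_nonneg _
    nlinarith
  · rw [norm_zero]
    positivity

lemma zz_sq (a b : ℕ) (hab : a + b ≤ n / 2) (p : ℕ) (m : Fin n → ℕ) : ‖zz ψ a b p m‖ ^ 2 ≤ 2 * Qf ψ p m + 2 * ‖mu a b‖ ^ 2 := by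
  have h0 := Qf_one ψ p m
  unfold zz
  split_ifs with hG
  · have h1 := pr_sq ψ a b hab p m
    have h2 := norm_sub_le (pr ψ a b p m) (mu a b)
    have h3 : ‖pr ψ a b p m - mu a b‖ ^ 2 ≤ (‖pr ψ a b p m‖ + ‖mu a b‖) ^ 2 := pow_le_pow_left₀ (norm_nonneg _) h2 2
    nlinarith [sq_nonneg (‖pr ψ a b p m‖ - ‖mu a b‖)]
  · have : 0 ≤ ‖mu a b‖ ^ 2 := by positivity
    rw [norm_zero]
    nlinarith

lemma zz_diff (a b : ℕ) (hab : a + b ≤ n / 2) (p : ℕ) (hp1 : 1 ≤ p) (hψ : ψ p ^ 2 ≠ 1) (m : Fin n → ℕ) :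
    ‖zz ψ a b p m - (pr ψ a b p m - mu a b)‖ ≤ (1 + ‖mu a b‖) * (1 / √(p : ℝ)) * Qf ψ p m := by
  have h0 := Qf_one ψ p m
  have hp1' : (1 : ℝ) ≤ p := by exact_mod_cast hp1
  have h3 : (1 : ℝ) ≤ √(p : ℝ) := Real.one_le_sqrt.2 hp1'
  unfold zz
  split_ifs with hG
  · rw [sub_self, norm_zero]
    positivity
  · have hQ : (p : ℝ) < Qf ψ p m := by
      by_contra hcon
      exact hG ⟨hψ, not_lt.1 hcon⟩
    rw [zero_sub, norm_neg]
    refine (norm_sub_le _ _).trans ?_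
    have h1 := pr_abs ψ a b hab p m
    have hQ0 : 0 ≤ Qf ψ p m := by linarith
    have h4 : √(Qf ψ p m) ≤ 1 / √(p : ℝ) * Qf ψ p m := by
      have h5 : √(p : ℝ) ≤ √(Qf ψ p m) := Real.sqrt_le_sqrt hQ.le
      rw [one_div, inv_mul_eq_div, le_div_iff₀ (by linarith)]
      calc √(Qf ψ p m) * √(p : ℝ) ≤ √(Qf ψ p m) * √(Qf ψ p m) := by gcongr
        _ = _ := Real.mul_self_sqrt hQ0
    have h6 : 1 ≤ 1 / √(p : ℝ) * Qf ψ p m := by
      rw [one_div, inv_mul_eq_div, le_div_iff₀ (by linarith), one_mul]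
      have : √(p : ℝ) ≤ p := by
        rw [Real.sqrt_le_left (by linarith)]
        nlinarith
      linarith
    have h7 : 0 ≤ ‖mu a b‖ := norm_nonneg _
    calc ‖pr ψ a b p m‖ + ‖mu a b‖ ≤ 1 / √(p : ℝ) * Qf ψ p m + ‖mu a b‖ * (1 / √(p : ℝ) * Qf ψ p m) := by
          have := le_mul_of_one_le_right h7 h6
          linarith
      _ = _ := by ring

end

/-- **Superelliptic curves.** Let a base `b₀ ≥ 2`, integers `n ≥ 1`, `A ≥ 0` and `δ > 0` be given. There are `c > 0` and `y₀` such that for all integers `s l`, `K l` (`l < n`), `y` with `2 s l ≤ K l` and `y ≥ y₀`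
the following holds.

Let `0 ≤ N l < b₀ ^ K l` be arbitrary integers, prescribe for every position `j` a digit `e l j` different from the digit of `N l` in base `b₀`, and let `Λ x` be for every `x` any set of at most `x ^ A` systems, each
of them consisting of a function `w` with `|w (p)| ≤ 1` and of multiplicative characters `ψ_p` modulo the primes `p`.
If one chooses `s l` of the `K l` positions and replaces the digits of `N l` at these positions, then for all but at most a proportion `1 / y ^ A` of the choices the polynomial `f = X ^ n + ∑ m_l X ^ l` whose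
coefficients are the numbers `m l` obtained has the following property: for all integers `x` with `y ≤ x ≤ exp (c s l)` for all `l`, all systems of `Λ x`, all exponents `a, b` with `a + b ≤ n / 2` and all real `τ` with
`|τ| ≤ x ^ A` we have `|∑ w (p) (t_p ^ a \bar t_p ^ b - μ_(a, b)) p ^ (- i τ)| ≤ x ^ (1 / 2 + δ)`, the sum running over the odd primes `p ≤ x` with the property `Good`; here
`t_p = - ∑ ψ_p (f (x)) / √p`. -/
theorem result (b₀ n : ℕ) (hb : 2 ≤ b₀) (hn : 1 ≤ n) (δ : ℝ) (hδ : 0 < δ) (A : ℕ) :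
    ∃ c : ℝ, 0 < c ∧ ∃ y₀ : ℕ,
    ∀ (K s : Fin n → ℕ) (y : ℕ), (∀ l, 2 * s l ≤ K l) → y₀ ≤ y →
    ∀ N : Fin n → ℕ, (∀ l, N l < b₀ ^ K l) → ∀ e : Fin n → ℕ → ℕ, (∀ l j, e l j < b₀ ∧ e l j ≠ digit b₀ j (N l)) →
    ∀ (κ : Type) (w : κ → ℕ → ℂ) (ψ : κ → ∀ p : ℕ, MulChar (ZMod p) ℂ) (Λ : ℕ → Finset κ), (∀ q p, ‖w q p‖ ≤ 1) → (∀ x, (Λ x).card ≤ x ^ A) →
      (exceptions b₀ K s N e (fun m => ∀ x : ℕ, y ≤ x → (∀ l, (x : ℝ) ≤ Real.exp (c * s l)) → ∀ q ∈ Λ x,
        ∀ a b : ℕ, a + b ≤ n / 2 → ∀ τ : ℝ, |τ| ≤ (x : ℝ) ^ A → ‖partialSum (ψ q) m a b (w q) τ x‖ ≤ (x : ℝ) ^ (1 / 2 + δ)) : ℝ) ≤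
        1 / (y : ℝ) ^ A * ∏ l, ((K l).choose (s l) : ℝ) := by
  classical
  obtain ⟨KS, hKS⟩ : ∃ KS : Finset (ℕ × ℕ), KS = (range (n / 2 + 1) ×ˢ range (n / 2 + 1)).filter (fun z => z.1 + z.2 ≤ n / 2) := ⟨_, rfl⟩
  have hmem : ∀ z : ℕ × ℕ, z ∈ KS ↔ z.1 + z.2 ≤ n / 2 := by
    intro z
    rw [hKS, mem_filter, mem_product, mem_range, mem_range]
    omega
  obtain ⟨C, hC, hCj⟩ := Pool.Agent.X22.SU.mean_C (n / 2)
  obtain ⟨CQ, hCQ0, hCQ⟩ := Pool.Agent.X22.SU.mean_high (n / 2)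
  have htc : ∀ (p : ℕ) (hp' : p.Prime) (χ : ∀ p : ℕ, MulChar (ZMod p) ℂ) (m : Fin n → ℕ), haveI : Fact p.Prime := ⟨hp'⟩
      trace p (χ p) m = Pool.Agent.X22.SU.tc (χ p) (fun j => (m j : ZMod p)) := by
    intro p hp' χ m
    unfold trace
    rw [dif_pos hp']
    rfl
  have hCj' : ∀ (p : ℕ), p.Prime → ∀ (χ : ∀ p : ℕ, MulChar (ZMod p) ℂ), χ p ^ 2 ≠ 1 → ∀ a b : ℕ, a + b ≤ n / 2 →
      |mean n p (fun m => (pr χ a b p m).re) - (mu a b).re| ≤ C / √(p : ℝ) ∧ |mean n p (fun m => (pr χ a b p m).im) - (mu a b).im| ≤ C / √(p : ℝ) := by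
    intro p hp' χ hχ a b hab
    have h1 := hCj p hp' (χ p) hχ n a b (by omega) hab
    unfold pr mu
    simp only [htc p hp' χ]
    exact h1
  have hCQ' : ∀ (p : ℕ), p.Prime → ∀ (χ : ∀ p : ℕ, MulChar (ZMod p) ℂ), χ p ^ 2 ≠ 1 → mean n p (fun m => Qf χ p m) ≤ 1 + CQ := by
    intro p hp' χ hχ
    have h1 := hCQ p hp' (χ p) hχ n (by omega)
    have e1 : (fun m : Fin n → ℕ => Qf χ p m) = fun m => 1 + ‖trace p (χ p) m‖ ^ (2 * (n / 2)) := rfl
    rw [e1, mean_add', mean_const n p hp'.one_lt.le]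
    simp only [htc p hp' χ]
    linarith
  obtain ⟨U, hU⟩ : ∃ U, U = ∑ z ∈ KS, ‖mu z.1 z.2‖ := ⟨_, rfl⟩
  have hU0 : 0 ≤ U := by
    rw [hU]
    exact sum_nonneg (fun k _ => norm_nonneg _)
  have hUk : ∀ z ∈ KS, ‖mu z.1 z.2‖ ≤ U := by
    intro k hk
    rw [hU]
    exact single_le_sum (f := fun z : ℕ × ℕ => ‖mu z.1 z.2‖) (fun k _ => norm_nonneg _) hk
  obtain ⟨H, hH⟩ : ∃ H, H = C + (1 + U) * (1 + CQ) := ⟨_, rfl⟩
  have hH0 : 0 ≤ H := by
    rw [hH]
    positivity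
  obtain ⟨W, hW⟩ : ∃ W, W = (1 + U) + 8 * H + (2 * (1 + CQ) + 2 * U ^ 2) := ⟨_, rfl⟩
  have hW1 : 1 ≤ W := by
    rw [hW]
    have : 0 ≤ 2 * (1 + CQ) + 2 * U ^ 2 := by positivity
    linarith
  have hW0 : 0 < W := by linarith
  obtain ⟨B, hB⟩ : ∃ B : ℕ, KS.card ≤ 2 ^ B := ⟨KS.card, (Nat.lt_two_pow_self).le⟩
  obtain ⟨c, hc, y₀, h⟩ := mzd_law b₀ n hb hn (δ / 2) (by positivity) A (A + B) A
  obtain ⟨x₁, hx₁⟩ := absorb W (δ / 2) hW0.le (by positivity)
  refine ⟨c, hc, y₀ + x₁ + 2, fun K s y hsK hy N hN e he κ w ψ Λ hw hΛ => ?_⟩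
  have h2 := h K s y hsK (by omega) N hN e he (κ × (ℕ × ℕ)) (fun x => Λ x ×ˢ KS) (fun x hx => by
      show (Λ x ×ˢ KS).card ≤ _
      rw [card_product, pow_add]
      exact Nat.mul_le_mul (hΛ x) (hB.trans (Nat.pow_le_pow_left hx B)))
    (fun x q p m => w q.1 p * zz (ψ q.1) q.2.1 q.2.2 p m) (fun x q p m _ => by
      show w q.1 p * zz (ψ q.1) q.2.1 q.2.2 p m = w q.1 p * zz (ψ q.1) q.2.1 q.2.2 p (fun i => m i % p)
      rw [← zz_mod])
    (fun x _ => W * Real.sqrt x) (fun x _ q _ => by positivity) ?_ ?_ ?_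
    (fun m => ∀ x : ℕ, y ≤ x → (∀ l, (x : ℝ) ≤ Real.exp (c * s l)) → ∀ q ∈ Λ x,
        ∀ a b : ℕ, a + b ≤ n / 2 → ∀ τ : ℝ, |τ| ≤ (x : ℝ) ^ A → ‖partialSum (ψ q) m a b (w q) τ x‖ ≤ (x : ℝ) ^ (1 / 2 + δ)) ?_
  · unfold exceptions
    exact h2
  · -- the bound
    intro x hx q hq p hp' m
    rw [mem_op] at hp'
    rw [mem_product] at hq
    rw [norm_mul]
    have h3 := zz_abs (ψ q.1) q.2.1 q.2.2 ((hmem _).1 hq.2) p hp'.2.1.one_lt.le m
    have h4 := hUk q.2 hq.2
    have h5 : √(p : ℝ) ≤ √(x : ℝ) := Real.sqrt_le_sqrt (by exact_mod_cast hp'.1)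
    calc ‖w q.1 p‖ * ‖zz (ψ q.1) q.2.1 q.2.2 p m‖ ≤ 1 * ((1 + U) * √(x : ℝ)) := by
          have := hw q.1 p
          have h6 : ‖zz (ψ q.1) q.2.1 q.2.2 p m‖ ≤ (1 + U) * √(x : ℝ) := h3.trans (by gcongr)
          gcongr
      _ ≤ W * Real.sqrt x := by
          rw [one_mul]
          apply mul_le_mul_of_nonneg_right _ (Real.sqrt_nonneg _)
          rw [hW]
          have : 0 ≤ 2 * (1 + CQ) + 2 * U ^ 2 := by positivity
          linarith
  · -- the means
    intro x hx q hq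
    rw [mem_product] at hq
    have h3 : ∀ p ∈ op x, |mean n p (fun m => (w q.1 p * zz (ψ q.1) q.2.1 q.2.2 p m).re)| +
        |mean n p (fun m => (w q.1 p * zz (ψ q.1) q.2.1 q.2.2 p m).im)| ≤ 4 * H * (1 / Real.sqrt p) := by
      intro p hp'
      rw [mem_op] at hp'
      have hp1 : (1 : ℝ) ≤ p := by exact_mod_cast hp'.2.1.one_lt.le
      have hsp : 0 < Real.sqrt p := Real.sqrt_pos.2 (by linarith)
      have h4 : |mean n p (fun m => (zz (ψ q.1) q.2.1 q.2.2 p m).re)| ≤ H * (1 / Real.sqrt p) ∧ |mean n p (fun m => (zz (ψ q.1) q.2.1 q.2.2 p m).im)| ≤ H * (1 / Real.sqrt p) := by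
        by_cases hNN : ψ q.1 p ^ 2 ≠ 1
        · have hm3 := hCQ' p hp'.2.1 (ψ q.1) hNN
          have hm4 := hCj' p hp'.2.1 (ψ q.1) hNN q.2.1 q.2.2 ((hmem _).1 hq.2)
          have hu := hUk q.2 hq.2
          have hm5 : (1 + ‖mu q.2.1 q.2.2‖) * (1 / √(p : ℝ)) * mean n p (fun m => Qf (ψ q.1) p m) ≤ (1 + U) * (1 / √(p : ℝ)) * (1 + CQ) := by
            have h0 : 0 ≤ mean n p (fun m => Qf (ψ q.1) p m) := by
              have h9 := mean_mono n p (fun _ => (0 : ℝ)) (fun m => Qf (ψ q.1) p m) (fun m => (zero_le_one.trans (Qf_one (ψ q.1) p m)))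
              rwa [mean_const n p hp'.2.1.one_lt.le] at h9
            gcongr
          constructor
          · have hm1 : mean n p (fun m => (zz (ψ q.1) q.2.1 q.2.2 p m).re) = mean n p (fun m => (zz (ψ q.1) q.2.1 q.2.2 p m - (pr (ψ q.1) q.2.1 q.2.2 p m - mu q.2.1 q.2.2)).re) +
                (mean n p (fun m => (pr (ψ q.1) q.2.1 q.2.2 p m).re) - (mu q.2.1 q.2.2).re) := by
              have e1 : (fun m => (zz (ψ q.1) q.2.1 q.2.2 p m).re) = fun m : Fin n → ℕ => (zz (ψ q.1) q.2.1 q.2.2 p m - (pr (ψ q.1) q.2.1 q.2.2 p m - mu q.2.1 q.2.2)).re +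
                  ((pr (ψ q.1) q.2.1 q.2.2 p m).re + (-(mu q.2.1 q.2.2).re)) := by
                funext m
                rw [Complex.sub_re, Complex.sub_re]
                ring
              rw [e1, mean_add', mean_add', mean_const n p hp'.2.1.one_lt.le]
              ring
            have hm2 := abs_mean_le n p (fun m => (zz (ψ q.1) q.2.1 q.2.2 p m - (pr (ψ q.1) q.2.1 q.2.2 p m - mu q.2.1 q.2.2)).re)
              (fun m => (1 + ‖mu q.2.1 q.2.2‖) * (1 / √(p : ℝ)) * Qf (ψ q.1) p m) (fun m => (Complex.abs_re_le_norm _).trans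
                (zz_diff (ψ q.1) q.2.1 q.2.2 ((hmem _).1 hq.2) p hp'.2.1.one_lt.le hNN m))
            rw [mean_mul] at hm2
            rw [hm1]
            refine (abs_add_le _ _).trans ?_
            calc _ ≤ (1 + U) * (1 / √(p : ℝ)) * (1 + CQ) + C / Real.sqrt p := add_le_add (hm2.trans hm5) hm4.1
              _ = H * (1 / Real.sqrt p) := by
                  rw [hH]
                  ring
          · have hm1 : mean n p (fun m => (zz (ψ q.1) q.2.1 q.2.2 p m).im) = mean n p (fun m => (zz (ψ q.1) q.2.1 q.2.2 p m - (pr (ψ q.1) q.2.1 q.2.2 p m - mu q.2.1 q.2.2)).im) +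
                (mean n p (fun m => (pr (ψ q.1) q.2.1 q.2.2 p m).im) - (mu q.2.1 q.2.2).im) := by
              have e1 : (fun m => (zz (ψ q.1) q.2.1 q.2.2 p m).im) = fun m : Fin n → ℕ => (zz (ψ q.1) q.2.1 q.2.2 p m - (pr (ψ q.1) q.2.1 q.2.2 p m - mu q.2.1 q.2.2)).im +
                  ((pr (ψ q.1) q.2.1 q.2.2 p m).im + (-(mu q.2.1 q.2.2).im)) := by
                funext m
                rw [Complex.sub_im, Complex.sub_im]
                ring
              rw [e1, mean_add', mean_add', mean_const n p hp'.2.1.one_lt.le]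
              ring
            have hm2 := abs_mean_le n p (fun m => (zz (ψ q.1) q.2.1 q.2.2 p m - (pr (ψ q.1) q.2.1 q.2.2 p m - mu q.2.1 q.2.2)).im)
              (fun m => (1 + ‖mu q.2.1 q.2.2‖) * (1 / √(p : ℝ)) * Qf (ψ q.1) p m) (fun m => (Complex.abs_im_le_norm _).trans
                (zz_diff (ψ q.1) q.2.1 q.2.2 ((hmem _).1 hq.2) p hp'.2.1.one_lt.le hNN m))
            rw [mean_mul] at hm2
            rw [hm1]
            refine (abs_add_le _ _).trans ?_
            calc _ ≤ (1 + U) * (1 / √(p : ℝ)) * (1 + CQ) + C / Real.sqrt p := add_le_add (hm2.trans hm5) hm4.2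
              _ = H * (1 / Real.sqrt p) := by
                  rw [hH]
                  ring
        · have e0 : ∀ m : Fin n → ℕ, zz (ψ q.1) q.2.1 q.2.2 p m = 0 := by
            intro m
            unfold zz
            rw [if_neg (fun hG => hNN hG.1)]
          simp only [e0, Complex.zero_re, Complex.zero_im]
          rw [mean_const n p hp'.2.1.one_lt.le, abs_zero]
          have : 0 ≤ H * (1 / Real.sqrt p) := by positivity
          exact ⟨this, this⟩
      have e1 : (fun m => (w q.1 p * zz (ψ q.1) q.2.1 q.2.2 p m).re) = fun m : Fin n → ℕ => (w q.1 p).re * (zz (ψ q.1) q.2.1 q.2.2 p m).re + (-(w q.1 p).im) * (zz (ψ q.1) q.2.1 q.2.2 p m).im := by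
        funext m
        rw [Complex.mul_re]
        ring
      have e2 : (fun m => (w q.1 p * zz (ψ q.1) q.2.1 q.2.2 p m).im) = fun m : Fin n → ℕ => (w q.1 p).re * (zz (ψ q.1) q.2.1 q.2.2 p m).im + (w q.1 p).im * (zz (ψ q.1) q.2.1 q.2.2 p m).re := by
        funext m
        rw [Complex.mul_im]
      rw [e1, e2, mean_add', mean_add', mean_mul, mean_mul, mean_mul, mean_mul]
      have h5 := (Complex.abs_re_le_norm (w q.1 p)).trans (hw q.1 p)
      have h6 := (Complex.abs_im_le_norm (w q.1 p)).trans (hw q.1 p)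
      obtain ⟨h7, h8⟩ := h4
      have hY0 : 0 ≤ H * (1 / Real.sqrt p) := by positivity
      have g1 : ∀ u v Y : ℝ, |u| ≤ 1 → |v| ≤ Y → 0 ≤ Y → |u * v| ≤ Y := by
        intro u v Y hu hv hY
        rw [abs_mul]
        calc |u| * |v| ≤ 1 * Y := by gcongr
          _ = Y := one_mul Y
      have k1 := g1 _ _ _ h5 h7 hY0
      have k2 := g1 (-(w q.1 p).im) _ _ (by rwa [abs_neg]) h8 hY0
      have k3 := g1 _ _ _ h5 h8 hY0
      have k4 := g1 _ _ _ h6 h7 hY0
      have k5 := abs_add_le ((w q.1 p).re * mean n p (fun m => (zz (ψ q.1) q.2.1 q.2.2 p m).re)) (-(w q.1 p).im * mean n p (fun m => (zz (ψ q.1) q.2.1 q.2.2 p m).im))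
      have k6 := abs_add_le ((w q.1 p).re * mean n p (fun m => (zz (ψ q.1) q.2.1 q.2.2 p m).im)) ((w q.1 p).im * mean n p (fun m => (zz (ψ q.1) q.2.1 q.2.2 p m).re))
      linarith
    refine (sum_le_sum h3).trans ?_
    rw [← mul_sum]
    have h6 := sum_inv_sqrt x
    calc 4 * H * ∑ p ∈ op x, 1 / Real.sqrt p ≤ 4 * H * (2 * Real.sqrt x) := by gcongr
      _ = 8 * H * Real.sqrt x := by ring
      _ ≤ W * Real.sqrt x := by
          apply mul_le_mul_of_nonneg_right _ (Real.sqrt_nonneg _)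
          rw [hW]
          have : 0 ≤ 2 * (1 + CQ) + 2 * U ^ 2 := by positivity
          linarith
  · -- the variance
    intro x hx q hq
    rw [mem_product] at hq
    have hone : ∀ p ∈ op x, mean n p (fun m => ‖w q.1 p * zz (ψ q.1) q.2.1 q.2.2 p m‖ ^ 2) ≤ W ^ 2 := by
      intro p hp'
      rw [mem_op] at hp'
      have hpt : ∀ m : Fin n → ℕ, ‖w q.1 p * zz (ψ q.1) q.2.1 q.2.2 p m‖ ^ 2 ≤ ‖zz (ψ q.1) q.2.1 q.2.2 p m‖ ^ 2 := by
        intro m
        rw [norm_mul, mul_pow]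
        have h5 : ‖w q.1 p‖ ^ 2 ≤ 1 := pow_le_one₀ (norm_nonneg _) (hw q.1 p)
        have h6 : 0 ≤ ‖zz (ψ q.1) q.2.1 q.2.2 p m‖ ^ 2 := sq_nonneg _
        nlinarith
      refine (mean_mono n p _ _ hpt).trans ?_
      by_cases hNN : ψ q.1 p ^ 2 ≠ 1
      · have h3 := mean_mono n p (fun m => ‖zz (ψ q.1) q.2.1 q.2.2 p m‖ ^ 2) (fun m => 2 * Qf (ψ q.1) p m + 2 * U ^ 2) (fun m => by
          refine (zz_sq (ψ q.1) q.2.1 q.2.2 ((hmem _).1 hq.2) p m).trans ?_
          have := hUk q.2 hq.2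
          gcongr)
        rw [mean_add', mean_mul, mean_const n p hp'.2.1.one_lt.le] at h3
        have hm3 := hCQ' p hp'.2.1 (ψ q.1) hNN
        refine h3.trans ?_
        have h8 : 2 * (1 + CQ) + 2 * U ^ 2 ≤ W := by
          rw [hW]
          linarith
        have h9 : W ≤ W ^ 2 := by nlinarith
        linarith
      · have e0 : (fun m : Fin n → ℕ => ‖zz (ψ q.1) q.2.1 q.2.2 p m‖ ^ 2) = fun _ => 0 := by
          funext m
          unfold zz
          rw [if_neg (fun hG => hNN hG.1), norm_zero, zero_pow (by norm_num)]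
        rw [e0, mean_const n p hp'.2.1.one_lt.le]
        positivity
    refine (sum_le_sum hone).trans ?_
    rw [sum_const, nsmul_eq_mul, mul_pow, Real.sq_sqrt (Nat.cast_nonneg x), mul_comm]
    have h4 := cardop_le x
    gcongr
  · -- the conclusion
    intro m hm x hyx hxr q hq a b hab τ hτ
    have hx0 : (0 : ℝ) < x := by exact_mod_cast (by omega : 0 < x)
    have hx1 : (1 : ℝ) ≤ x := by exact_mod_cast (by omega : 1 ≤ x)
    have hlx0 : 0 ≤ Real.log x := Real.log_natCast_nonneg x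
    have h3 := hm x hyx hxr (q, (a, b)) (mem_product.2 ⟨hq, (hmem (a, b)).2 hab⟩) τ hτ
    have e1 : partialSum (ψ q) m a b (w q) τ x = ∑ p ∈ op x, w q p * zz (ψ q) a b p m * hp τ p := by
      have hset : (range (x + 1)).filter (fun p => p.Prime ∧ p ≠ 2) = op x := by
        ext p
        rw [mem_filter, mem_range, mem_op]
        constructor
        · rintro ⟨h5, h6⟩
          exact ⟨by omega, h6⟩
        · rintro ⟨h5, h6⟩
          exact ⟨by omega, h6⟩
      unfold partialSum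
      rw [← filter_filter, hset, sum_filter]
      apply sum_congr rfl
      intro p _
      unfold zz
      split_ifs
      · rfl
      · simp
    rw [e1]
    refine h3.trans ?_
    have h6 := hx₁ x (by omega)
    have hpow : (x : ℝ) ^ (1 / 2 + δ) = Real.sqrt x * ((x : ℝ) ^ (δ / 2) * (x : ℝ) ^ (δ / 2)) := by
      rw [← Real.rpow_add hx0, Real.sqrt_eq_rpow, ← Real.rpow_add hx0]
      congr 1
      ring
    rw [hpow]
    have h7 : W ≤ (x : ℝ) ^ (δ / 2) := by
      refine le_trans ?_ h6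
      have : 0 ≤ W * Real.log x := by positivity
      linarith
    calc W * Real.sqrt x * (x : ℝ) ^ (δ / 2) = Real.sqrt x * (W * (x : ℝ) ^ (δ / 2)) := by ring
      _ ≤ _ := by gcongr

end Pool.Agent.Results.MP_adf543_nt.FewDigitSuperellipticParts
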