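import Pool.Agent.X320.KR.PFinal

/-!
# Galois representations whose Frobenius eigenvalues differ by roots of unity

Let `K` be a number field and `ρ : G_K → GL_n(ℚ̄_ℓ)` continuous and semisimple, with any ramification. We
prove: if for the places `v` in a set of upper density more than `1 - 1/n` the quotients of the eigenvalues of every
Frobenius element at `v` are roots of unity, then `ρ` is scalar on an open subgroup, and a power of
every `ρ(g)` is scalar. The number `1 - 1/n` can be replaced with `1 - 1/d`, if the restriction of `ρ`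
to every open normal subgroup has at most `d` isomorphism classes of irreducible constituents, in particular any positive
upper density suffices if `ρ` is irreducible and not induced from a proper open subgroup.

So an irreducible geometric representation `R` of dimension `m` with this property is, by Tate's theorem on lifts of
projective representations, a twist of a representation with finite image by a character, and its automorphy is an
instance of the strong Artin conjecture. All other representations have, for a set of places of lower density at least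
`1/m`, two Frobenius eigenvalues whose quotient is not a root of unity; this includes all `R` with two different
Hodge-Tate weights. For `m = 2` and `R` dihedral both densities are `1/2`, so the bound is sharp.
-/

set_option autoImplicit false

namespace Pool.Agent.Results.MP_adf543_nt.IsoclinicBound

open NumberField IsDedekindDomain Filter Matrix Polynomial
open Pool.Agent.W401.Cheb (GK IsFrob dens)

/-- representations of `G_K` by `n × n` matrices over an algebraic closure of `ℚ_ℓ` -/
noncomputable abbrev Rep (K : Type) [Field K] (ℓ : ℕ) [Fact ℓ.Prime] (n : ℕ) : Type := GK K →* GL (Fin n) (PadicAlgCl ℓ)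

/-- the matrix of `g` -/
noncomputable abbrev mat {K : Type} [Field K] {ℓ : ℕ} [Fact ℓ.Prime] {n : ℕ} (ρ : Rep K ℓ n) (g : GK K) :
    Matrix (Fin n) (Fin n) (PadicAlgCl ℓ) := (ρ g : Matrix (Fin n) (Fin n) (PadicAlgCl ℓ))

section

variable {K : Type} [Field K] {ℓ : ℕ} [Fact ℓ.Prime] {n : ℕ} (ρ : Rep K ℓ n)

/-- the subspace `S` is stable under the subgroup `W` -/
def StableOn (W : Subgroup (GK K)) (S : Submodule (PadicAlgCl ℓ) (Fin n → PadicAlgCl ℓ)) : Prop :=
  ∀ w ∈ W, ∀ s ∈ S, mat ρ w *ᵥ s ∈ S

/-- `ρ` is semisimple: every stable subspace has a stable complement -/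
def Semisimple : Prop := ∀ S, StableOn ρ ⊤ S → ∃ S', StableOn ρ ⊤ S' ∧ IsCompl S S'

/-- `S` is minimal among the nonzero subspaces which are stable under `W` -/
def MinStable (W : Subgroup (GK K)) (S : Submodule (PadicAlgCl ℓ) (Fin n → PadicAlgCl ℓ)) : Prop :=
  S ≠ ⊥ ∧ StableOn ρ W S ∧ ∀ S' ≤ S, StableOn ρ W S' → S' = ⊥ ∨ S' = S

/-- There is a nonzero `W`-linear map from `S` to `S'`. It is an isomorphism if both are minimal. -/
def Linked (W : Subgroup (GK K)) (S S' : Submodule (PadicAlgCl ℓ) (Fin n → PadicAlgCl ℓ)) : Prop :=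
  ∃ φ : (Fin n → PadicAlgCl ℓ) →ₗ[PadicAlgCl ℓ] (Fin n → PadicAlgCl ℓ), (∀ s ∈ S, φ s ∈ S') ∧
    (∃ s ∈ S, φ s ≠ 0) ∧ ∀ w ∈ W, ∀ s ∈ S, φ (mat ρ w *ᵥ s) = mat ρ w *ᵥ φ s

/-- Among any `d + 1` minimal stable subspaces for an open normal subgroup two are isomorphic. -/
def TypesLE (d : ℕ) : Prop :=
  ∀ W : Subgroup (GK K), W.Normal → IsOpen (W : Set (GK K)) →
    ∀ S : Fin (d + 1) → Submodule (PadicAlgCl ℓ) (Fin n → PadicAlgCl ℓ), (∀ i, MinStable ρ W (S i)) →
      ∃ i j, i ≠ j ∧ Linked ρ W (S i) (S j)

/-- the quotients of the eigenvalues of the matrix are roots of unity -/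
def Isoclinic (X : Matrix (Fin n) (Fin n) (PadicAlgCl ℓ)) : Prop :=
  ∀ a b, X.charpoly.IsRoot a → X.charpoly.IsRoot b → ∃ m : ℕ, 0 < m ∧ a ^ m = b ^ m

end

/-- Let `ρ : G_K → GL_n(ℚ̄_ℓ)` be continuous and semisimple. Let `d = n`, or let `d` be such that the restriction of
`ρ` to any open normal subgroup has at most `d` isomorphism classes of minimal stable subspaces. Suppose that
`(1 - δ) d < 1`, and that for the places `v` in a set of upper density at least `δ` (the proportion of these places
among the places of norm at most `N` is at least `δ` for arbitrarily large `N`) the quotients of the eigenvalues of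
all Frobenius elements at `v` are roots of unity. Then `ρ` is scalar on an open subgroup, and every `ρ g` has a
positive power which is a scalar matrix. -/
theorem result (K : Type) [Field K] [NumberField K] (ℓ : ℕ) [Fact ℓ.Prime] (n : ℕ) (ρ : Rep K ℓ n)
    (hρ : Continuous ρ) (hss : Semisimple ρ) (d : ℕ) (hd : d = n ∨ TypesLE ρ d) (δ : ℝ) (hδ : (1 - δ) * d < 1)
    (h : ∃ᶠ N in atTop, δ ≤ dens (fun v : HeightOneSpectrum (𝓞 K) => ∀ σ, IsFrob v σ → Isoclinic (mat ρ σ)) N) :
    (∃ H : Subgroup (GK K), IsOpen (H : Set (GK K)) ∧ ∀ g ∈ H, ∃ z : PadicAlgCl ℓ, mat ρ g = z • 1) ∧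
    ∀ g, ∃ m : ℕ, 0 < m ∧ ∃ z : PadicAlgCl ℓ, mat ρ g ^ m = z • 1 := by
  classical
  have hss' : Pool.Agent.X320.DS.Semisimple ρ := by
    intro S hS
    obtain ⟨S', hS', hc⟩ := hss S (fun g _ => hS g)
    exact ⟨S', fun g => hS' g (Subgroup.mem_top g), hc⟩
  obtain ⟨H, hH, h1⟩ := Pool.Agent.X320.KR.potentially_scalar ρ hρ hss' (hd.symm.imp_left fun hd => hd) hδ _ h
    (fun v hv σ hσ a b ha hb => hv σ hσ a b ha hb)
  refine ⟨⟨H, hH, h1⟩, fun g => ?_⟩
  have : Finite (GK K ⧸ H) := Subgroup.quotient_finite_of_isOpen _ hH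
  obtain ⟨m, hm, hgm⟩ := Subgroup.exists_pow_mem_of_index_ne_zero (H := H) (Subgroup.index_ne_zero_of_finite) g
  obtain ⟨z, hz⟩ := h1 _ hgm.2
  refine ⟨m, hm, z, ?_⟩
  rw [← hz]
  show (ρ g : Matrix (Fin n) (Fin n) (PadicAlgCl ℓ)) ^ m = (ρ (g ^ m) : Matrix (Fin n) (Fin n) (PadicAlgCl ℓ))
  rw [map_pow, Units.val_pow_eq_pow_val]

end Pool.Agent.Results.MP_adf543_nt.IsoclinicBound
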