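import Pool.Agent.X290.Reg.Ex
/-!
# `p`-adic representations of CM fields with one prime above `p`

Let `K` be a number field (for instance a CM field) and `K'/K` a finite Galois extension such that
`K'` has exactly one prime above `p` and no Galois extension of `p`-power degree, other than itself,
which is unramified at all finite primes. Let `A` be a Noetherian local ring of residue
characteristic `p` and `R : G_K → GL_m(A)` continuous, unramified outside `p`, with residually
unipotent restriction to `G_{K'}`. Then the image of `R` is the image of the decomposition group at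
every prime above `p`, and the image of `G_{K'}` is the image of the inertia group of `K'`. The fields
of third, fourth, fifth and twelfth roots of unity have the second property for all primes `p`, the
field of seventh roots of unity has it for `p = 7`.
-/

set_option autoImplicit false

open NumberField Matrix IsLocalRing

namespace Pool.Agent.Results.MP_adf543_nt.LocalImageOnePrime

/-- The absolute Galois group of `K`. -/
abbrev G (K : Type) [Field K] : Type := Gal(AlgebraicClosure K/K)

/-- The ring of all algebraic integers. -/
abbrev Z (K : Type) [Field K] : Type := 𝓞 (AlgebraicClosure K)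

/-- The field `M` (with all number fields `M'` isomorphic to it) has no Galois extension of degree a
power of `p`, different from `1`, which is unramified at all maximal ideals. -/
def NoUnramified (p : ℕ) (M : Type) [Field M] : Prop :=
  ∀ (M' L : Type) [Field M'] [NumberField M'] [Field L] [NumberField L] [Algebra M' L]
    [IsGalois M' L], Nonempty (M' ≃+* M) →
    (∀ (Q : Ideal (𝓞 L)) [Q.IsMaximal], Algebra.IsUnramifiedAt (𝓞 M') Q) →
      ∀ k : ℕ, Module.finrank M' L = p ^ k → k = 0

/-- There is at most one maximal ideal above `p`. -/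
def OnePrime (p : ℕ) (M : Type) [Field M] : Prop :=
  ∀ P Q : Ideal (𝓞 M), P.IsMaximal → Q.IsMaximal → (p : 𝓞 M) ∈ P → (p : 𝓞 M) ∈ Q → P = Q

/-- The conditions on the field `K'`. -/
def Base {K : Type} [Field K] (p : ℕ) (K' : IntermediateField K (AlgebraicClosure K)) : Prop :=
  FiniteDimensional K K' ∧ IsGalois K K' ∧ NoUnramified p K' ∧ OnePrime p K'

/-- The conditions on the ring of coefficients. -/
def Coefficients (p : ℕ) (A : Type) [CommRing A] [IsLocalRing A] [TopologicalSpace A] : Prop :=
  IsNoetherianRing A ∧ IsAdic (maximalIdeal A) ∧ (p : A) ∈ maximalIdeal A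

variable {K : Type} [Field K] {A : Type} [CommRing A] {m : ℕ}

/-- `R` is unramified at all primes that do not lie above `p`. -/
def UnramifiedOutside (p : ℕ) (R : G K →* GL (Fin m) A) : Prop :=
  ∀ P : Ideal (Z K), P.IsMaximal → (p : Z K) ∉ P → ∀ τ : G K, (∀ x : Z K, τ • x - x ∈ P) → R τ = 1

/-- The reduction of `R g` is unipotent for all `g` which act trivially on `K'`. -/
def ResiduallyUnipotentOn [IsLocalRing A] (R : G K →* GL (Fin m) A)
    (K' : IntermediateField K (AlgebraicClosure K)) : Prop :=
  ∀ g ∈ K'.fixingSubgroup,
    IsNilpotent ((R g : Matrix (Fin m) (Fin m) A).map (residue A) - 1)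

/-- The inertia group at the prime ideal `P` of the ring of all algebraic integers. -/
def Inertia (P : Ideal (Z K)) : Set (G K) := {τ | ∀ x : Z K, τ • x - x ∈ P}

/-- The decomposition group at the prime ideal `P` of the ring of all algebraic integers. -/
def Decomposition (P : Ideal (Z K)) : Set (G K) := {g | ∀ x : Z K, g • x ∈ P ↔ x ∈ P}

/-- The elements of `D` preserve the subspace `W`. -/
def Stable (R : G K →* GL (Fin m) A) {L : Type} [Field L] [Algebra A L]
    (W : Submodule L (Fin m → L)) (D : Set (G K)) : Prop :=
  ∀ g ∈ D, ∀ w ∈ W, (R g : Matrix (Fin m) (Fin m) A).map (algebraMap A L) *ᵥ w ∈ W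

/-- Every value of `R` on `Gal(Kbar/K')` is a value on the inertia group of `K'` at `P`. -/
def InertiaImage (R : G K →* GL (Fin m) A) (K' : IntermediateField K (AlgebraicClosure K))
    (P : Ideal (Z K)) : Prop :=
  ∀ g ∈ K'.fixingSubgroup, ∃ h ∈ K'.fixingSubgroup, h ∈ Inertia P ∧ R h = R g

/-- Every value of `R` is a value on the decomposition group at `P`. -/
def DecompositionImage (R : G K →* GL (Fin m) A) (P : Ideal (Z K)) : Prop :=
  ∀ g, ∃ d ∈ Decomposition P, R d = R g

/-- Over every field which contains `A`, the subspaces which are stable under the decomposition group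
at `P` are stable. -/
def StableSubspaces (R : G K →* GL (Fin m) A) (P : Ideal (Z K)) : Prop :=
  ∀ (L : Type) [Field L] [Algebra A L] (W : Submodule L (Fin m → L)),
    Stable R W (Decomposition P) → Stable R W Set.univ

/-- The fields generated by roots of unity of order `3`, `4`, `5`, `12` (for every prime `p`) and
`7` (for `p = 7`). -/
def Example (p : ℕ) (M : Type) [Field M] [NumberField M] : Prop :=
  IsCyclotomicExtension {3} ℚ M ∨ IsCyclotomicExtension {4} ℚ M ∨ IsCyclotomicExtension {5} ℚ M ∨
    IsCyclotomicExtension {12} ℚ M ∨ (p = 7 ∧ IsCyclotomicExtension {7} ℚ M)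

omit [CommRing A] in
/-- The theorem. -/
theorem result :
    (∀ (p : ℕ) (K : Type) [Field K] [NumberField K]
      (K' : IntermediateField K (AlgebraicClosure K)), p.Prime → Base p K' →
      ∀ (m : ℕ) (A : Type) [CommRing A] [IsLocalRing A] [TopologicalSpace A], Coefficients p A →
      ∀ R : G K →* GL (Fin m) A, Continuous R → UnramifiedOutside p R →
        ResiduallyUnipotentOn R K' → ∀ P : Ideal (Z K), P.IsMaximal → (p : Z K) ∈ P →
        DecompositionImage R P ∧ InertiaImage R K' P ∧ StableSubspaces R P) ∧
    ∀ p : ℕ, p.Prime → ∀ (M : Type) [Field M] [NumberField M], Example p M → NoUnramified p M := by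
  refine ⟨?_, ?_⟩
  · rintro p K _ _ K' hp ⟨_, _, hNU, hone⟩ m A _ _ _ ⟨_, hA, hpA⟩ R hR hur hres P hP hpP
    have hpf : Fact p.Prime := ⟨hp⟩
    have e : IntermediateField.fixedField K'.fixingSubgroup = K' :=
      InfiniteGalois.fixedField_fixingSubgroup K'
    have hUn : K'.fixingSubgroup.Normal :=
      (InfiniteGalois.normal_iff_isGalois K').2 inferInstance
    have hUo : IsOpen (K'.fixingSubgroup : Set Gal(AlgebraicClosure K/K)) :=
      (InfiniteGalois.isOpen_iff_finite K').2 inferInstance
    have h1 := Pool.Agent.X290.Reg.mainU K'.fixingSubgroup hUo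
      (by
        show Pool.Agent.X290.Reg.NoUnrF p (IntermediateField.fixedField K'.fixingSubgroup)
        rw [e]; exact hNU)
      (by
        show Pool.Agent.X290.Reg.OnePrime p (IntermediateField.fixedField K'.fixingSubgroup)
        rw [e]; exact hone) hA hpA R hR hur hres hP hpP
    have h2 : ∀ g, ∃ d ∈ Decomposition P, R d = R g := h1.2
    refine ⟨h2, ?_, ?_⟩
    · intro g hg
      obtain ⟨h, hh, hhU, e⟩ := h1.1 g hg
      exact ⟨h, hhU, hh, e⟩
    · intro L _ _ W hW g _ w hw
      obtain ⟨d, hd, e⟩ := h2 g
      rw [← e]
      exact hW d hd w hw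
  · rintro p hp M _ _ (h | h | h | h | ⟨rfl, h⟩)
    · exact Pool.Agent.X290.Reg.noUnrF3 hp M
    · exact Pool.Agent.X290.Reg.noUnrF4 hp M
    · exact Pool.Agent.X290.Reg.noUnrF5 hp M
    · exact Pool.Agent.X290.Reg.noUnrF12 hp M
    · exact Pool.Agent.X290.Reg.noUnrF7 M

end Pool.Agent.Results.MP_adf543_nt.LocalImageOnePrime
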