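import Pool.Agent.X124.KC.Sum

/-!
# Sums over the places of degree one of a number field `K` of the traces of Frobenius of the parts of the cohomology of the members of ALL
pencils of superelliptic curves `y^N = f(x) - n q(x)` over `K`, which belong to characters of any order, with arbitrary twists and at all
heights, for ALL integers `n` near `± α v_i`, outside a set of `α` of small dimension

Nothing is used besides Mathlib in the statement.
-/

set_option autoImplicit false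

namespace Pool.Agent.Results.MP_adf543_nt.SuperellipticPencils

open Finset Polynomial

/-- The reduction of a polynomial with coefficients in `ℤ[Y]` modulo `p` and `Y - ρ` (that is, modulo the place `v = (p, θ - ρ)` of
`K = ℚ[Y]/(h)`, `θ` the class of `Y`). -/
noncomputable def red (p ρ : ℕ) (f : ℤ[X][X]) : (ZMod p)[X] := f.map (eval₂RingHom (Int.castRingHom (ZMod p)) (ρ : ZMod p))

/-- The sum `- ∑ g(y) ψ(f(y) - n q(y))` over the `y` modulo `v = (p, θ - ρ)`, `ψ` a multiplicative character modulo `p`. For `g = 1` this is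
(up to the part of weight `0`) the trace of Frobenius at `v` on the `ψ`-part of the cohomology of the curve `y^N = f(x) - n q(x)`, `N` the order
of `ψ`. -/
noncomputable def trace (f q : ℤ[X][X]) (p : ℕ) (ψ : MulChar (ZMod p) ℂ) (g : ℕ → ℂ) (n : ℤ) (ρ : ℕ) : ℂ :=
  -∑ y ∈ range p, g y * ψ ((red p ρ (f - C (C n) * q)).eval (y : ZMod p))

open Classical in
/-- The places of degree one above `p` of the number field `K = ℚ[Y]/(h)`, `h` monic and irreducible: the zeros `0 ≤ ρ < p` of `h` modulo `p`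
(for `p` not dividing the discriminant of `h` they correspond to the primes `v = (p, θ - ρ)` with residue field `𝔽_p`). -/
noncomputable def places (h : ℤ[X]) (p : ℕ) : Finset ℕ := (range p).filter (fun ρ : ℕ => (p : ℤ) ∣ h.eval (ρ : ℤ))

open Classical in
/-- Those of these places `v = (p, θ - ρ)` for which the character `ψ_v = ψ ρ` is not trivial. -/
noncomputable def active (h : ℤ[X]) (p : ℕ) (ψ : ℕ → MulChar (ZMod p) ℂ) : Finset ℕ := (places h p).filter (fun ρ => ψ ρ ≠ 1)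

/-- The sum of `t_v (log N v) (N v) ^ (- 1 / 2 - i σ)` over the places `v` of degree one of `K = ℚ[Y]/(h)` of odd norm `≤ x` with `ψ_v ≠ 1`,
where `t_v` is the trace formed with the character `ψ_v = ψ p ρ` and the function `g_v = g p ρ`. -/
noncomputable def dirichletSum (h : ℤ[X]) (f q : ℤ[X][X]) (ψ : (p : ℕ) → ℕ → MulChar (ZMod p) ℂ) (g : ℕ → ℕ → ℕ → ℂ) (n : ℤ) (x : ℕ)
    (σ : ℝ) : ℂ :=
  ∑ p ∈ (range (x + 1)).filter (fun p => p.Prime ∧ p ≠ 2), ∑ ρ ∈ active h p (ψ p),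
    trace f q p (ψ p ρ) (g p ρ) n ρ / ((√(p : ℝ) : ℝ) : ℂ) * (Real.log p : ℂ) * (p : ℂ) ^ (-(σ * Complex.I))

theorem places_le {h : ℤ[X]} (hm : h.Monic) (p : ℕ) (hp : p.Prime) : (places h p).card ≤ h.natDegree := by
  classical
  unfold places
  have : Fact p.Prime := ⟨hp⟩
  have hmp : (h.map (Int.castRingHom (ZMod p))).Monic := hm.map _
  have h1 : ((range p).filter (fun r : ℕ => (p : ℤ) ∣ h.eval (r : ℤ))).card ≤
      (h.map (Int.castRingHom (ZMod p))).roots.toFinset.card := by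
    apply card_le_card_of_injOn (fun r : ℕ => (r : ZMod p))
    · intro r hr
      rw [mem_coe, mem_filter] at hr
      rw [mem_coe, Multiset.mem_toFinset, mem_roots hmp.ne_zero, IsRoot.def]
      have h2 : (h.map (Int.castRingHom (ZMod p))).eval ((r : ℕ) : ZMod p) = ((h.eval (r : ℤ) : ℤ) : ZMod p) := by
        simp
      rw [h2]
      exact (ZMod.intCast_zmod_eq_zero_iff_dvd _ p).2 hr.2
    · intro r hr r' hr' he
      rw [mem_coe, mem_filter, mem_range] at hr hr'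
      have h3 := (ZMod.natCast_eq_natCast_iff' r r' p).1 he
      rwa [Nat.mod_eq_of_lt hr.1, Nat.mod_eq_of_lt hr'.1] at h3
  refine h1.trans ((Multiset.toFinset_card_le _).trans ((card_roots' _).trans ?_))
  exact natDegree_map_le

theorem active_le {h : ℤ[X]} (hm : h.Monic) (p : ℕ) (hp : p.Prime) (ψ : ℕ → MulChar (ZMod p) ℂ) :
    (active h p ψ).card ≤ h.natDegree := by
  classical
  unfold active
  exact (card_filter_le _ _).trans (places_le hm p hp)

lemma mem_active {h : ℤ[X]} {p : ℕ} {ψ : ℕ → MulChar (ZMod p) ℂ} {ρ : ℕ} : ρ ∈ active h p ψ ↔ ρ ∈ places h p ∧ ψ ρ ≠ 1 := by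
  classical
  unfold active
  rw [mem_filter]

/-- a Bezout identity -/
lemma bezout {h c : ℤ[X]} (hm : h.Monic) (hi : Irreducible h) (hc : ¬ h ∣ c) : ∃ (s t : ℤ[X]) (m : ℤ), m ≠ 0 ∧ s * h + t * c = C m := by
  have h1 : Irreducible (h.map (algebraMap ℤ ℚ)) := (hm.irreducible_iff_irreducible_map_fraction_map).1 hi
  have hinj : Function.Injective (algebraMap ℤ ℚ) := (algebraMap ℤ ℚ).injective_int
  have h2 : ¬ h.map (algebraMap ℤ ℚ) ∣ c.map (algebraMap ℤ ℚ) := by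
    rw [Polynomial.map_dvd_map _ hinj hm]
    exact hc
  obtain ⟨s, t, hst⟩ := h1.coprime_iff_not_dvd.2 h2
  obtain ⟨b, hb⟩ := IsLocalization.integerNormalization_map_to_map (nonZeroDivisors ℤ) s
  obtain ⟨d, hd⟩ := IsLocalization.integerNormalization_map_to_map (nonZeroDivisors ℤ) t
  refine ⟨C (d : ℤ) * IsLocalization.integerNormalization (nonZeroDivisors ℤ) s,
    C (b : ℤ) * IsLocalization.integerNormalization (nonZeroDivisors ℤ) t, (b : ℤ) * (d : ℤ),
    mul_ne_zero (nonZeroDivisors.ne_zero b.2) (nonZeroDivisors.ne_zero d.2), ?_⟩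
  apply Polynomial.map_injective _ hinj
  rw [Polynomial.map_add, Polynomial.map_mul, Polynomial.map_mul, Polynomial.map_mul, Polynomial.map_mul, hb, hd, Polynomial.map_C,
    Polynomial.map_C, Polynomial.map_C, map_mul, C_mul]
  have e1 : ((b : ℤ) • s : ℚ[X]) = C (algebraMap ℤ ℚ (b : ℤ)) * s := by
    rw [zsmul_eq_mul]
    simp
  have e2 : ((d : ℤ) • t : ℚ[X]) = C (algebraMap ℤ ℚ (d : ℤ)) * t := by
    rw [zsmul_eq_mul]
    simp
  rw [e1, e2]
  linear_combination (C (algebraMap ℤ ℚ (b : ℤ)) * C (algebraMap ℤ ℚ (d : ℤ))) * hst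

/-- the number of zeros -/
lemma card_bound (p : ℕ) (hp : p.Prime) (g : (ZMod p)[X]) (hg : g ≠ 0)
    (P : ↥(range p) → Prop) (hP : ∀ j, P j → g.eval ((j : ℕ) : ZMod p) = 0) : Nat.card {j : ↥(range p) // P j} ≤ g.natDegree := by
  classical
  have : Fact p.Prime := ⟨hp⟩
  rw [Nat.card_eq_fintype_card, Fintype.card_subtype]
  have h1 : ((univ : Finset ↥(range p)).filter P).card ≤ g.roots.toFinset.card := by
    apply card_le_card_of_injOn (fun j : ↥(range p) => ((j : ℕ) : ZMod p))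
    · intro j hj
      rw [mem_coe, mem_filter] at hj
      rw [mem_coe, Multiset.mem_toFinset, mem_roots hg, IsRoot.def]
      exact hP j hj.2
    · intro j _ j' _ he
      have hj2 := mem_range.1 j.2
      have hj2' := mem_range.1 j'.2
      have h3 := (ZMod.natCast_eq_natCast_iff' _ _ p).1 he
      rw [Nat.mod_eq_of_lt hj2, Nat.mod_eq_of_lt hj2'] at h3
      exact Subtype.ext h3
  exact h1.trans ((Multiset.toFinset_card_le _).trans (card_roots' _))

/-- the polynomials `f - y q` modulo a place are not zero -/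
lemma red_sub {f q : ℤ[X][X]} (hf : f.Monic) (hd : q.natDegree < f.natDegree) (p ρ : ℕ) [Fact p.Prime] (y : ZMod p) :
    red p ρ f - C y * red p ρ q ≠ 0 ∧ (red p ρ f - C y * red p ρ q).natDegree ≤ f.natDegree := by
  have h1 : (red p ρ f).Monic := hf.map _
  have h2 : (red p ρ f).natDegree = f.natDegree := hf.natDegree_map _
  have h3 : (C y * red p ρ q).natDegree < (red p ρ f).natDegree := by
    rw [h2]
    exact (natDegree_C_mul_le _ _).trans_lt (natDegree_map_le.trans_lt hd)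
  have h4 : (red p ρ f - C y * red p ρ q).natDegree = f.natDegree := by
    rw [natDegree_sub_eq_left_of_natDegree_lt h3, h2]
  refine ⟨fun h0 => ?_, h4.le⟩
  rw [h0, natDegree_zero] at h4
  omega

/-- `q` is not zero modulo almost all places -/
lemma red_ne {h : ℤ[X]} {q : ℤ[X][X]} {j : ℕ} {s t : ℤ[X]} {m : ℤ} (hst : s * h + t * q.coeff j = C m) (p ρ : ℕ)
    (hρ : ρ ∈ places h p) (hpm : ¬ p ∣ m.natAbs) : red p ρ q ≠ 0 := by
  classical
  intro h0
  apply hpm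
  have h1 : (eval₂RingHom (Int.castRingHom (ZMod p)) (ρ : ZMod p)) (q.coeff j) = 0 := by
    have := congrArg (fun g => g.coeff j) h0
    simpa [red, coeff_map] using this
  have h2 : (eval₂RingHom (Int.castRingHom (ZMod p)) (ρ : ZMod p)) h = 0 := by
    unfold places at hρ
    rw [mem_filter] at hρ
    have h3 : (eval₂RingHom (Int.castRingHom (ZMod p)) (ρ : ZMod p)) h = ((h.eval (ρ : ℤ) : ℤ) : ZMod p) := by
      rw [coe_eval₂RingHom, ← Polynomial.eval_map]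
      simp
    rw [h3]
    exact (ZMod.intCast_zmod_eq_zero_iff_dvd _ p).2 hρ.2
  have h3 := congrArg (eval₂RingHom (Int.castRingHom (ZMod p)) (ρ : ZMod p)) hst
  rw [map_add, map_mul, map_mul, h1, h2, mul_zero, mul_zero, add_zero] at h3
  have h4 : (eval₂RingHom (Int.castRingHom (ZMod p)) (ρ : ZMod p)) (C m) = ((m : ℤ) : ZMod p) := by
    rw [coe_eval₂RingHom, eval₂_C]
    rfl
  rw [h4] at h3
  exact Int.natCast_dvd.1 ((ZMod.intCast_zmod_eq_zero_iff_dvd _ p).1 h3.symm)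

/-- the values of `f` -/
noncomputable def val (f : ℤ[X][X]) (p ρ t : ℕ) : ZMod p := (red p ρ f).eval (t : ZMod p)

lemma eval_sub' (f q : ℤ[X][X]) (n : ℤ) (p ρ t : ℕ) :
    (red p ρ (f - C (C n) * q)).eval (t : ZMod p) = val f p ρ t - (n : ZMod p) * val q p ρ t := by
  unfold red val red
  rw [Polynomial.map_sub, Polynomial.map_mul, Polynomial.map_C, eval_sub, eval_mul, eval_C, coe_eval₂RingHom, eval₂_C]
  rfl

open Pool.Agent.X124.KC (sm)

lemma sm_smul (p : ℕ) (R : Finset ℕ) (a b : ℕ → ℕ → ZMod p) (χ : ℕ → MulChar (ZMod p) ℂ) (w : ℕ → ℕ → ℂ) (n : ℤ) (r : ℂ) :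
    sm p R a b χ (fun ρ t => r * w ρ t) n = r * sm p R a b χ w n := by
  unfold Pool.Agent.X124.KC.sm
  rw [mul_sum]
  refine sum_congr rfl fun ρ _ => ?_
  rw [mul_sum]
  refine sum_congr rfl fun t _ => ?_
  ring

/-- Let `δ > 0` and `A ≥ 0`. There are `κ > 0` and `C > 0` such that for all reals `v_i ≥ 1` with `∑ v_i ^ (-u) < ∞` for all `u > τ` (`τ ≥ 0`;
for example `v_i = 2 ^ i`, `τ = 0`), all `θ < 1` and all systems of sets `U_K(x)` (one for each `K = ℚ[Y]/(h)` and `x`) of at most `x ^ A` pairs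
`(ψ, g)` of families of characters `ψ_v` modulo `p` and functions `g_v` on the residues modulo `v = (p, θ - ρ)` with `|g_v(y)| ≤ 1` there is a set
`E` of reals of Hausdorff dimension at most `(1 - κ + τ) / (1 - θ)` with the following property. For every real `α > 0` outside `E`, ALL monic
irreducible `h ∈ ℤ[Y]` (all number fields `K = ℚ[Y]/(h)`), ALL `f, q ∈ ℤ[Y][x]` with `f` monic of degree `> deg q` and `q ≠ 0` in `K[x]`, all
`i ≥ i₀(α, h, f, q)`, ALL integers `n` with `||n| - α v_i| ≤ v_i ^ θ`, ALL integers `x` with `(log |n|) ^ C ≤ x ≤ |n| ^ κ`, ALL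
`(ψ, g) ∈ U_K(x)` and ALL real `σ` with `|σ| ≤ x ^ A`, the sum of `t_v (log N v) (N v) ^ (- 1 / 2 - i σ)`,
`t_v = - ∑ g_v(y) ψ_v(f(y) - n q(y))`, over the places `v` of degree one of `K` of odd norm `≤ x` with `ψ_v ≠ 1` is at most `x ^ (1 / 2 + δ)` in
absolute value. -/
theorem result (δ A : ℝ) (hδ : 0 < δ) (hA : 0 ≤ A) :
    ∃ κ C : ℝ, 0 < κ ∧ 0 < C ∧ ∀ (v : ℕ → ℝ) (τ θ : ℝ), (∀ i, 1 ≤ v i) → 0 ≤ τ → θ < 1 →
      (∀ u : ℝ, τ < u → Summable (fun i => v i ^ (-u))) →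
      ∀ U : ℤ[X] → ℕ → Finset (((p : ℕ) → ℕ → MulChar (ZMod p) ℂ) × (ℕ → ℕ → ℕ → ℂ)),
      (∀ h x, 2 ≤ x → ((U h x).card : ℝ) ≤ (x : ℝ) ^ A) → (∀ h x, ∀ l ∈ U h x, ∀ p ρ y, ‖l.2 p ρ y‖ ≤ 1) →
      ∃ E : Set ℝ, dimH E ≤ ENNReal.ofReal ((1 - κ + τ) / (1 - θ)) ∧
        ∀ α : ℝ, 0 < α → α ∉ E → ∀ (h : ℤ[X]) (f q : ℤ[X][X]), h.Monic → Irreducible h → f.Monic →
          q.natDegree < f.natDegree → (∃ j, ¬ h ∣ q.coeff j) →
          ∃ i₀ : ℕ, ∀ i : ℕ, i₀ ≤ i → ∀ n : ℤ, |(|(n : ℝ)|) - α * v i| ≤ v i ^ θ →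
            ∀ x : ℕ, Real.log |(n : ℝ)| ^ C ≤ x → (x : ℝ) ≤ |(n : ℝ)| ^ κ → ∀ l ∈ U h x, ∀ σ : ℝ, |σ| ≤ (x : ℝ) ^ A →
              ‖dirichletSum h f q l.1 l.2 n x σ‖ ≤ (x : ℝ) ^ (1 / 2 + δ) := by
  classical
  obtain ⟨W, hW1, hW2, hW3⟩ := Pool.Agent.X35.GV.heights A hA
  obtain ⟨κ, C₀, hκ, hC, H⟩ := Pool.Agent.X124.KC.law2 (δ / 2) (2 * A + 7) (by positivity)
  refine ⟨κ, C₀, hκ, hC, fun v τ θ hv1 hτ hθ hv U hU hψ => ?_⟩
  let Γ : Type := {c : ℤ[X] × ℤ[X][X] × ℤ[X][X] // c.1.Monic ∧ Irreducible c.1 ∧ c.2.1.Monic ∧ c.2.2.natDegree < c.2.1.natDegree ∧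
    ∃ j, ¬ c.1 ∣ c.2.2.coeff j}
  have hcount : Countable Γ := by
    have h0 := Pool.Agent.X35.GM.countable_int_poly
    have h1 : Countable ℤ[X][X] := by
      rw [← Cardinal.mk_le_aleph0_iff]
      exact Polynomial.cardinalMk_le_max.trans (max_le Cardinal.mk_le_aleph0 le_rfl)
    exact Subtype.countable
  have hbez : ∀ c : Γ, ∃ j, ∃ (s t : ℤ[X]) (m : ℤ), m ≠ 0 ∧ s * c.1.1 + t * c.1.2.2.coeff j = Polynomial.C m := by
    intro c
    obtain ⟨j, hj⟩ := c.2.2.2.2.2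
    obtain ⟨s, t, m, hm, hst⟩ := bezout c.2.1 c.2.2.1 hj
    exact ⟨j, s, t, m, hm, hst⟩
  choose jj ss tt mm hmm hst using hbez
  obtain ⟨w, hw⟩ : ∃ w : Bool → (ℕ → ℕ → ℕ → ℂ) → ℕ → ℕ → ℕ → ℂ, w = fun b g p ρ y => (if b then -1 else Complex.I) * g p ρ y := ⟨_, rfl⟩
  have hw1 : ∀ (b : Bool) (g : ℕ → ℕ → ℕ → ℂ) (p ρ y : ℕ), ‖w b g p ρ y‖ = ‖g p ρ y‖ := by
    intro b g p ρ y
    rw [hw]
    beta_reduce
    rw [norm_mul]
    cases b
    · rw [if_neg Bool.false_ne_true, Complex.norm_I, one_mul]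
    · rw [if_pos rfl, norm_neg, norm_one, one_mul]
  obtain ⟨E, hE1, hE2⟩ := H v τ θ hv1 hτ hθ hv Γ
    (((((p : ℕ) → ℕ → MulChar (ZMod p) ℂ) × (ℕ → ℕ → ℕ → ℂ)) × Bool) × (ℕ → ℝ))
    (fun c x => (U c.1.1 x ×ˢ (univ : Finset Bool)) ×ˢ W x)
    (by
      intro c x hx
      have hx2 : (2 : ℝ) ≤ x := by exact_mod_cast hx
      have hx0 : (0 : ℝ) < x := by linarith
      rw [card_product, card_product, card_univ, Fintype.card_bool]
      push_cast
      have e1 : (x : ℝ) ^ (2 * A + 7) = (x : ℝ) ^ A * (x : ℝ) * (x : ℝ) ^ (A + 6) := by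
        rw [← Real.rpow_add_one hx0.ne', ← Real.rpow_add hx0]
        congr 1
        ring
      rw [e1]
      have h2 := hU c.1.1 x hx
      have h3 := hW1 x hx
      gcongr)
    (fun c l p => active c.1.1 p (l.1.1.1 p))
    (fun c p => val c.1.2.1 p) (fun c p => val c.1.2.2 p) (fun _ l p => l.1.1.1 p)
    (fun _ l p ρ t => (l.2 p : ℂ) * w l.1.2 l.1.1.2 p ρ t) (fun c => c.1.1.natDegree) (fun c => c.1.2.1.natDegree + c.1.2.2.natDegree)
    (fun c => (mm c).natAbs) (fun c => Nat.cast_nonneg _) (fun c => by positivity) (fun c => Int.natAbs_ne_zero.2 (hmm c))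
    (by
      intro c l p hp
      exact_mod_cast active_le c.2.1 p hp _)
    (by
      intro c l p _ ρ hρ
      exact (mem_active.1 hρ).2)
    (by
      intro c x l hl p ρ t
      rw [mem_product, mem_product] at hl
      beta_reduce
      rw [norm_mul, hw1, Complex.norm_real, Real.norm_eq_abs]
      exact mul_le_one₀ (hW2 x l.2 hl.2 p) (norm_nonneg _) (hψ c.1.1 x l.1.1 hl.1.1 p ρ t))
    (by
      intro c l p hp hpm ρ hρ y
      have := Fact.mk hp
      have hρ1 := (mem_active.1 hρ).1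
      have hrs := red_sub c.2.2.2.1 c.2.2.2.2.1 p ρ y
      have h1 := card_bound p hp _ hrs.1 (fun j => val c.1.2.1 p ρ j = y * val c.1.2.2 p ρ j) (by
          intro j hj
          rw [eval_sub, eval_mul, eval_C]
          exact sub_eq_zero.2 hj)
      have h2 := card_bound p hp (red p ρ c.1.2.2) (red_ne (hst c) p ρ hρ1 hpm) (fun j => val c.1.2.2 p ρ j = 0) (fun j hj => hj)
      have h4 : (Nat.card {j : ↥(range p) // val c.1.2.1 p ρ j = y * val c.1.2.2 p ρ j} : ℝ) ≤ c.1.2.1.natDegree := by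
        exact_mod_cast h1.trans hrs.2
      have h5 : (Nat.card {j : ↥(range p) // val c.1.2.2 p ρ j = 0} : ℝ) ≤ c.1.2.2.natDegree := by
        exact_mod_cast h2.trans natDegree_map_le
      exact add_le_add h4 h5)
  refine ⟨E, hE1, fun α hα hαE h f q hh hirr hf hd hq => ?_⟩
  obtain ⟨c, hc⟩ : ∃ c : Γ, c.1 = (h, f, q) := ⟨⟨(h, f, q), hh, hirr, hf, hd, hq⟩, rfl⟩
  obtain ⟨i₁, hi₁⟩ := hE2 α hα hαE c
  obtain ⟨K, hK⟩ : ∃ K : ℝ, K = h.natDegree + 1 := ⟨_, rfl⟩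
  have hK0 : 0 < K := by rw [hK]; positivity
  -- absorbing constants
  obtain ⟨x₀, hx₀⟩ : ∃ x₀ : ℝ, ∀ x : ℝ, x₀ ≤ x → 4 * (x : ℝ) ^ (1 / 2 + δ / 2) +
      4 * (K * (x : ℝ) ^ (1 / 2 : ℝ) * Real.log x) ≤ (x : ℝ) ^ (1 / 2 + δ) := by
    have h1 := (isLittleO_log_rpow_atTop (show (0 : ℝ) < δ / 2 by positivity)).bound (show (0 : ℝ) < 1 by norm_num)
    have h2 : Filter.Tendsto (fun x : ℝ => x ^ (δ / 2)) Filter.atTop Filter.atTop := tendsto_rpow_atTop (by positivity)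
    have h3 := h2.eventually_ge_atTop (4 + 4 * K)
    obtain ⟨x₀, hx₀⟩ := Filter.eventually_atTop.1 (h1.and (h3.and (Filter.eventually_ge_atTop (1 : ℝ))))
    refine ⟨x₀, fun x hx => ?_⟩
    obtain ⟨h4, h5, h6⟩ := hx₀ x hx
    have hx0 : 0 < x := by linarith
    rw [one_mul, Real.norm_eq_abs, Real.norm_eq_abs, abs_of_nonneg (Real.log_nonneg h6), abs_of_pos (Real.rpow_pos_of_pos hx0 _)] at h4
    have e1 : x ^ (1 / 2 + δ / 2) = x ^ (1 / 2 : ℝ) * x ^ (δ / 2) := Real.rpow_add hx0 _ _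
    have e2 : x ^ (1 / 2 + δ) = x ^ (1 / 2 : ℝ) * (x ^ (δ / 2) * x ^ (δ / 2)) := by
      rw [← Real.rpow_add hx0, ← Real.rpow_add hx0]
      congr 1
      ring
    rw [e1, e2]
    have h7 : 0 < x ^ (1 / 2 : ℝ) := Real.rpow_pos_of_pos hx0 _
    have h8 : 0 < x ^ (δ / 2) := Real.rpow_pos_of_pos hx0 _
    calc 4 * (x ^ (1 / 2 : ℝ) * x ^ (δ / 2)) + 4 * (K * x ^ (1 / 2 : ℝ) * Real.log x)
        ≤ 4 * (x ^ (1 / 2 : ℝ) * x ^ (δ / 2)) + 4 * (K * x ^ (1 / 2 : ℝ) * x ^ (δ / 2)) := by gcongr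
      _ = x ^ (1 / 2 : ℝ) * ((4 + 4 * K) * x ^ (δ / 2)) := by ring
      _ ≤ x ^ (1 / 2 : ℝ) * (x ^ (δ / 2) * x ^ (δ / 2)) := by gcongr
  obtain ⟨i₂, hi₂⟩ := Pool.Agent.X35.GV.log_large hv1 hτ hθ hv α hα x₀ C₀ hC
  refine ⟨max i₁ i₂, fun i hi n hn x hx1 hx2 l hlU σ hσ => ?_⟩
  have hlarge := hi₂ i (le_trans (le_max_right _ _) hi) n hn
  have hxx : x₀ ≤ x := hlarge.trans hx1
  obtain ⟨hx3, hS⟩ := hi₁ i ((le_max_left _ _).trans hi) n hn x hx1 hx2
  have hc1 : c.1.1 = h := by rw [hc]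
  have hSb : ∀ b : Bool, ∀ w' ∈ W x, |∑ p ∈ Pool.Agent.X35.GV.op x, w' p * ((sm p (active c.1.1 p (l.1 p))
      (val c.1.2.1 p) (val c.1.2.2 p) (l.1 p) (w b l.2 p) n).re / √(p : ℝ) * Real.log p)| ≤ (x : ℝ) ^ (1 / 2 + δ / 2) := by
    intro b w' hw'
    have h1 := hS ((l, b), w') (by
      rw [mem_product, mem_product]
      exact ⟨⟨by rw [hc1]; exact hlU, mem_univ _⟩, hw'⟩)
    refine le_trans (le_of_eq ?_) h1
    congr 1
    refine sum_congr rfl fun p _ => ?_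
    have h2 := sm_smul p (active c.1.1 p (l.1 p)) (val c.1.2.1 p) (val c.1.2.2 p) (l.1 p) (w b l.2 p) n (w' p : ℂ)
    have h3 := congrArg Complex.re h2
    rw [Complex.re_ofReal_mul] at h3
    beta_reduce
    rw [h3]
    ring
  have hbd : ∀ b : Bool, ∀ p ∈ Pool.Agent.X35.GV.op x, |(sm p (active c.1.1 p (l.1 p)) (val c.1.2.1 p)
      (val c.1.2.2 p) (l.1 p) (w b l.2 p) n).re / √(p : ℝ) * Real.log p| ≤ K * (x : ℝ) ^ (1 / 2 : ℝ) * Real.log x := by
    intro b p hp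
    obtain ⟨q1, q2, q3, q4, q5⟩ := Pool.Agent.X35.GV.op_log hp
    rw [Pool.Agent.X35.GV.mem_op] at hp
    have hp0 : (0 : ℝ) < p := by linarith
    have hpb0 : 0 < √(p : ℝ) := Real.sqrt_pos.2 hp0
    have hpp : √(p : ℝ) * √(p : ℝ) = p := Real.mul_self_sqrt hp0.le
    have h0 := (Complex.abs_re_le_norm _).trans (Pool.Agent.X124.KC.sm_norm p (active c.1.1 p (l.1 p))
      (val c.1.2.1 p) (val c.1.2.2 p) (l.1 p) (w b l.2 p) (fun ρ t => by rw [hw1]; exact hψ h x l hlU p ρ t) n)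
    have h1 : (((active c.1.1 p (l.1 p)).card : ℕ) : ℝ) ≤ K := by
      have : ((active c.1.1 p (l.1 p)).card : ℝ) ≤ h.natDegree := by
        rw [hc1]
        exact_mod_cast active_le hh p hp.2.1 _
      rw [hK]
      linarith
    rw [abs_mul, abs_div, abs_of_pos hpb0, abs_of_pos q3]
    have h3 : √(p : ℝ) ≤ (x : ℝ) ^ (1 / 2 : ℝ) := by
      rw [← Real.sqrt_eq_rpow]
      exact Real.sqrt_le_sqrt q2
    have e2 : K * p / √(p : ℝ) = K * √(p : ℝ) := by rw [div_eq_iff hpb0.ne', mul_assoc, hpp]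
    calc _ ≤ (K * p) / √(p : ℝ) * Real.log p := by
          have h4 := h0.trans (mul_le_mul_of_nonneg_right h1 hp0.le)
          gcongr
      _ = K * √(p : ℝ) * Real.log p := by rw [e2]
      _ ≤ _ := by gcongr
  have hlogx := Real.log_natCast_nonneg x
  have hfin1 := hW3 x (by omega) _ _ _ (by positivity) (hbd true) (hSb true) σ hσ
  have hfin2 := hW3 x (by omega) _ _ _ (by positivity) (hbd false) (hSb false) σ hσ
  have hdd : dirichletSum h f q l.1 l.2 n x σ = (∑ p ∈ Pool.Agent.X35.GV.op x,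
      (((sm p (active c.1.1 p (l.1 p)) (val c.1.2.1 p) (val c.1.2.2 p) (l.1 p) (w true l.2 p) n).re /
        √(p : ℝ) * Real.log p : ℝ) : ℂ) * (p : ℂ) ^ (-(σ * Complex.I))) + Complex.I * (∑ p ∈ Pool.Agent.X35.GV.op x,
      (((sm p (active c.1.1 p (l.1 p)) (val c.1.2.1 p) (val c.1.2.2 p) (l.1 p) (w false l.2 p) n).re /
        √(p : ℝ) * Real.log p : ℝ) : ℂ) * (p : ℂ) ^ (-(σ * Complex.I))) := by
    unfold dirichletSum
    rw [mul_sum, ← sum_add_distrib]
    refine sum_congr rfl fun p _ => ?_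
    obtain ⟨Z, hZ⟩ : ∃ Z : ℂ, Z = sm p (active c.1.1 p (l.1 p)) (val c.1.2.1 p) (val c.1.2.2 p) (l.1 p)
      (fun ρ t => -1 * l.2 p ρ t) n := ⟨_, rfl⟩
    have hwt : w true l.2 p = fun ρ t => -1 * l.2 p ρ t := by
      rw [hw]
      funext ρ t
      simp
    have hwf : w false l.2 p = fun ρ t => -Complex.I * (-1 * l.2 p ρ t) := by
      rw [hw]
      funext ρ t
      simp
    have h1 : sm p (active c.1.1 p (l.1 p)) (val c.1.2.1 p) (val c.1.2.2 p) (l.1 p) (w true l.2 p) n = Z := by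
      rw [hZ, hwt]
    have h2 : sm p (active c.1.1 p (l.1 p)) (val c.1.2.1 p) (val c.1.2.2 p) (l.1 p) (w false l.2 p) n = -Complex.I * Z := by
      rw [hZ, hwf]
      exact sm_smul p _ _ _ _ (fun ρ t => -1 * l.2 p ρ t) n (-Complex.I)
    have h3 : (-Complex.I * Z).re = Z.im := by simp
    rw [h1, h2, h3]
    have h4 : ∑ ρ ∈ active h p (l.1 p), trace f q p (l.1 p ρ) (l.2 p ρ) n ρ = Z := by
      rw [hZ, hc]
      unfold Pool.Agent.X124.KC.sm trace
      refine sum_congr rfl fun ρ _ => ?_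
      rw [← sum_neg_distrib]
      refine sum_congr rfl fun y _ => ?_
      rw [eval_sub']
      ring
    have h5 := Complex.re_add_im Z
    rw [← sum_mul, ← sum_mul, ← sum_div, h4]
    simp only [Complex.ofReal_mul, Complex.ofReal_div]
    linear_combination (-(Real.log p : ℂ) / ((√(p : ℝ) : ℝ) : ℂ) * (p : ℂ) ^ (-(σ * Complex.I))) * h5
  rw [hdd]
  refine (norm_add_le _ _).trans ?_
  rw [norm_mul, Complex.norm_I, one_mul]
  refine (add_le_add hfin1 hfin2).trans (le_trans (le_of_eq ?_) (hx₀ x hxx))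
  ring

end Pool.Agent.Results.MP_adf543_nt.SuperellipticPencils
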